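import Mathlib

/-! A CDT subproblem in dimension three with exactly one global minimizer, exactly one local
nonglobal minimizer and a KKT point whose value lies strictly between the two. -/

open Filter Topology Matrix

namespace Pool.Agent.Results.MP_2e17cf_an.SaddleBelow

/-- Data of a CDT subproblem in `ℝ^n`. -/
structure CDT (n : ℕ) where
  Q : Matrix (Fin n) (Fin n) ℝ
  c : Fin n → ℝ
  A₁ : Matrix (Fin n) (Fin n) ℝ
  b₁ : Fin n → ℝ
  d₁ : ℝ
  A₂ : Matrix (Fin n) (Fin n) ℝ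
  b₂ : Fin n → ℝ
  d₂ : ℝ
  Q_symm : Q.IsSymm
  A₁_posDef : A₁.PosDef
  A₂_posDef : A₂.PosDef

variable {n : ℕ} (P : CDT n)

/-- The objective `½ xᵀQx + cᵀx`. -/
noncomputable def CDT.f (x : Fin n → ℝ) : ℝ := 1 / 2 * (x ⬝ᵥ (P.Q *ᵥ x)) + P.c ⬝ᵥ x

/-- First constraint function. -/
noncomputable def CDT.g₁ (x : Fin n → ℝ) : ℝ := x ⬝ᵥ (P.A₁ *ᵥ x) + 2 * (P.b₁ ⬝ᵥ x) + P.d₁

/-- Second constraint function. -/
noncomputable def CDT.g₂ (x : Fin n → ℝ) : ℝ := x ⬝ᵥ (P.A₂ *ᵥ x) + 2 * (P.b₂ ⬝ᵥ x) + P.d₂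

/-- The feasible set. -/
def CDT.F : Set (Fin n → ℝ) := {x | P.g₁ x ≤ 0 ∧ P.g₂ x ≤ 0}

/-- KKT points (the gradient of `g i` is `2 (A i x + b i)`). -/
def CDT.IsKKT (x : Fin n → ℝ) : Prop :=
  x ∈ P.F ∧ ∃ μ₁ μ₂ : ℝ, 0 ≤ μ₁ ∧ 0 ≤ μ₂ ∧
    P.Q *ᵥ x + P.c + μ₁ • ((2 : ℝ) • (P.A₁ *ᵥ x + P.b₁)) + μ₂ • ((2 : ℝ) • (P.A₂ *ᵥ x + P.b₂)) = 0 ∧
    μ₁ * P.g₁ x = 0 ∧ μ₂ * P.g₂ x = 0

/-- Global minimizers. -/
def CDT.IsGlobal (x : Fin n → ℝ) : Prop := x ∈ P.F ∧ ∀ y ∈ P.F, P.f x ≤ P.f y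

/-- Local nonglobal minimizers. -/
def CDT.IsLocalNonglobal (x : Fin n → ℝ) : Prop :=
  x ∈ P.F ∧ IsLocalMinOn P.f P.F x ∧ ∃ y ∈ P.F, P.f y < P.f x

/-- The example. -/
noncomputable def ex : CDT 3 where
  Q := Matrix.diagonal ![-2, -2, -2]
  c := ![-1 / 2, -1 / 4, 0]
  A₁ := Matrix.diagonal ![1, 4, 4]
  b₁ := 0
  d₁ := -5
  A₂ := Matrix.diagonal ![4, 1, 1]
  b₂ := 0
  d₂ := -5
  Q_symm := Matrix.isSymm_diagonal _
  A₁_posDef := Matrix.PosDef.diagonal (by intro i; fin_cases i <;> simp)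
  A₂_posDef := Matrix.PosDef.diagonal (by intro i; fin_cases i <;> simp)

lemma f_eq (x : Fin 3 → ℝ) :
    ex.f x = -(x 0 ^ 2 + x 1 ^ 2 + x 2 ^ 2) - x 0 / 2 - x 1 / 4 := by
  simp [CDT.f, ex, dotProduct, Fin.sum_univ_three, Matrix.mulVec_diagonal]
  ring

lemma g₁_eq (x : Fin 3 → ℝ) : ex.g₁ x = x 0 ^ 2 + 4 * x 1 ^ 2 + 4 * x 2 ^ 2 - 5 := by
  simp [CDT.g₁, ex, dotProduct, Fin.sum_univ_three, Matrix.mulVec_diagonal]
  ring

lemma g₂_eq (x : Fin 3 → ℝ) : ex.g₂ x = 4 * x 0 ^ 2 + x 1 ^ 2 + x 2 ^ 2 - 5 := by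
  simp [CDT.g₂, ex, dotProduct, Fin.sum_univ_three, Matrix.mulVec_diagonal]
  ring

lemma mem_F (x : Fin 3 → ℝ) : x ∈ ex.F ↔
    x 0 ^ 2 + 4 * x 1 ^ 2 + 4 * x 2 ^ 2 ≤ 5 ∧ 4 * x 0 ^ 2 + x 1 ^ 2 + x 2 ^ 2 ≤ 5 := by
  simp only [CDT.F, Set.mem_ofPred_eq, g₁_eq, g₂_eq]
  constructor <;> rintro ⟨h1, h2⟩ <;> constructor <;> linarith

lemma ext3 {x y : Fin 3 → ℝ} (h0 : x 0 = y 0) (h1 : x 1 = y 1) (h2 : x 2 = y 2) : x = y := by
  funext i; fin_cases i
  · exact h0
  · exact h1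
  · exact h2

/-- A two-sided descent curve excludes a local minimum. -/
lemma not_localMin_two {x : Fin 3 → ℝ} (γ : ℝ → Fin 3 → ℝ) (hγ : Continuous γ) (h0 : γ 0 = x)
    (hF : ∀ᶠ t in 𝓝 (0 : ℝ), γ t ∈ ex.F)
    (hlt : ∀ᶠ t in 𝓝[>] (0 : ℝ), ex.f (γ t) + ex.f (γ (-t)) < 2 * ex.f x) :
    ¬ IsLocalMinOn ex.f ex.F x := by
  intro h
  have h1 : Tendsto γ (𝓝 0) (𝓝 x) := by rw [← h0]; exact hγ.tendsto 0
  have h2 : Tendsto γ (𝓝 0) (𝓝[ex.F] x) := tendsto_nhdsWithin_iff.mpr ⟨h1, hF⟩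
  have h3 : ∀ᶠ t in 𝓝 (0 : ℝ), ex.f x ≤ ex.f (γ t) := h2.eventually h
  have h4 : Tendsto (fun t : ℝ => -t) (𝓝 0) (𝓝 0) := by
    have := (continuous_neg (G := ℝ)).tendsto 0
    simpa using this
  have h5 : ∀ᶠ t in 𝓝 (0 : ℝ), ex.f x ≤ ex.f (γ (-t)) := h4.eventually h3
  obtain ⟨t, ht1, ht2, ht3⟩ :=
    (hlt.and ((h3.and h5).filter_mono nhdsWithin_le_nhds)).exists
  linarith

/-- A one-sided descent curve excludes a local minimum. -/
lemma not_localMin_one {x : Fin 3 → ℝ} (γ : ℝ → Fin 3 → ℝ) (hγ : Continuous γ) (h0 : γ 0 = x)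
    (hF : ∀ᶠ t in 𝓝 (0 : ℝ), γ t ∈ ex.F)
    (hlt : ∀ᶠ t in 𝓝[>] (0 : ℝ), ex.f (γ t) < ex.f x) :
    ¬ IsLocalMinOn ex.f ex.F x := by
  intro h
  have h1 : Tendsto γ (𝓝 0) (𝓝 x) := by rw [← h0]; exact hγ.tendsto 0
  have h2 : Tendsto γ (𝓝 0) (𝓝[ex.F] x) := tendsto_nhdsWithin_iff.mpr ⟨h1, hF⟩
  have h3 : ∀ᶠ t in 𝓝 (0 : ℝ), ex.f x ≤ ex.f (γ t) := h2.eventually h
  obtain ⟨t, ht1, ht2⟩ := (hlt.and (h3.filter_mono nhdsWithin_le_nhds)).exists
  linarith

/-- Rotation in the last two coordinates. -/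
noncomputable def rot (x : Fin 3 → ℝ) (t : ℝ) : Fin 3 → ℝ :=
  ![x 0, x 1 * Real.cos t + x 2 * Real.sin t, -x 1 * Real.sin t + x 2 * Real.cos t]

lemma rot_cont (x : Fin 3 → ℝ) : Continuous (rot x) := by
  unfold rot
  refine continuous_pi (fun i => ?_)
  fin_cases i
  · exact continuous_const
  · simp; fun_prop
  · simp; fun_prop

lemma rot_zero (x : Fin 3 → ℝ) : rot x 0 = x := by
  apply ext3 <;> simp [rot]

lemma rot_mem {x : Fin 3 → ℝ} (hx : x ∈ ex.F) (t : ℝ) : rot x t ∈ ex.F := by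
  rw [mem_F] at hx ⊢
  have h := Real.sin_sq_add_cos_sq t
  have e : (x 1 * Real.cos t + x 2 * Real.sin t) ^ 2 + (-x 1 * Real.sin t + x 2 * Real.cos t) ^ 2 =
      x 1 ^ 2 + x 2 ^ 2 := by
    linear_combination (x 1 ^ 2 + x 2 ^ 2) * h
  simp only [rot, Matrix.cons_val_zero, Matrix.cons_val_one, Matrix.cons_val]
  constructor <;> linarith [hx.1, hx.2]

lemma rot_f (x : Fin 3 → ℝ) (t : ℝ) :
    ex.f (rot x t) = ex.f x - (x 1 * Real.cos t + x 2 * Real.sin t - x 1) / 4 := by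
  have h := Real.sin_sq_add_cos_sq t
  have e : (x 1 * Real.cos t + x 2 * Real.sin t) ^ 2 + (-x 1 * Real.sin t + x 2 * Real.cos t) ^ 2 =
      x 1 ^ 2 + x 2 ^ 2 := by
    linear_combination (x 1 ^ 2 + x 2 ^ 2) * h
  rw [f_eq, f_eq]
  simp only [rot, Matrix.cons_val_zero, Matrix.cons_val_one, Matrix.cons_val]
  linarith

/-- Step 1: a local minimizer has `z = 0` and `y ≥ 0`. -/
lemma step1 {x : Fin 3 → ℝ} (hx : x ∈ ex.F) (h : IsLocalMinOn ex.f ex.F x) :
    x 2 = 0 ∧ 0 ≤ x 1 := by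
  have hz : x 2 = 0 := by
    by_contra hz
    -- choose the sign
    obtain ⟨s, hs, hs'⟩ : ∃ s : ℝ, (s = 1 ∨ s = -1) ∧ 0 < s * x 2 := by
      rcases lt_or_gt_of_ne hz with h | h
      · exact ⟨-1, Or.inr rfl, by linarith⟩
      · exact ⟨1, Or.inl rfl, by linarith⟩
    refine not_localMin_one (x := x) (fun t => rot x (s * t)) ((rot_cont x).comp (by fun_prop))
      (by simp [rot_zero]) (Eventually.of_forall fun t => rot_mem hx _) ?_ h
    have hlim : Tendsto (fun t : ℝ => s * x 2 * (1 - t ^ 2 / 4) - |x 1| * t / 2) (𝓝[>] 0)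
        (𝓝 (s * x 2)) := by
      have : Continuous (fun t : ℝ => s * x 2 * (1 - t ^ 2 / 4) - |x 1| * t / 2) := by fun_prop
      have h2 := this.tendsto 0
      simp only [ne_eq, OfNat.ofNat_ne_zero, not_false_eq_true, zero_pow, zero_div, sub_zero,
        mul_one, mul_zero] at h2
      exact h2.mono_left nhdsWithin_le_nhds
    have hev := hlim.eventually (lt_mem_nhds hs')
    have hle1 : ∀ᶠ t in 𝓝[>] (0 : ℝ), t < 1 :=
      (gt_mem_nhds (by norm_num : (0 : ℝ) < 1)).filter_mono nhdsWithin_le_nhds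
    filter_upwards [hev, hle1, self_mem_nhdsWithin] with t ht ht1 ht0
    have ht0' : 0 < t := ht0
    rw [rot_f]
    have hsin : Real.sin (s * t) = s * Real.sin t := by
      rcases hs with rfl | rfl
      · simp
      · rw [show (-1 : ℝ) * t = -t by ring, Real.sin_neg]; ring
    have hcos : Real.cos (s * t) = Real.cos t := by
      rcases hs with rfl | rfl
      · simp
      · rw [show (-1 : ℝ) * t = -t by ring, Real.cos_neg]
    rw [hsin, hcos]
    have h1 : t - t ^ 3 / 4 < Real.sin t := by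
      have h := Real.sin_gt_sub_cube ht0'
      have h3 : 0 < t ^ 3 := by positivity
      linarith
    have h2 : 1 - t ^ 2 / 2 ≤ Real.cos t := Real.one_sub_sq_div_two_le_cos
    have h3 : Real.cos t ≤ 1 := Real.cos_le_one t
    have h4 : s * x 2 * (t - t ^ 3 / 4) < s * x 2 * Real.sin t := by gcongr
    have h5 : -(|x 1| * (t ^ 2 / 2)) ≤ x 1 * (Real.cos t - 1) := by
      have : |x 1 * (Real.cos t - 1)| ≤ |x 1| * (t ^ 2 / 2) := by
        rw [abs_mul]
        gcongr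
        rw [abs_of_nonpos (by linarith)]; linarith
      exact (abs_le.mp this).1
    have h6 : 0 < t * (s * x 2 * (1 - t ^ 2 / 4) - |x 1| * t / 2) := mul_pos ht0' ht
    nlinarith
  refine ⟨hz, ?_⟩
  by_contra hy
  push Not at hy
  refine not_localMin_one (x := x) (rot x) (rot_cont x) (rot_zero x)
    (Eventually.of_forall fun t => rot_mem hx _) ?_ h
  have hle1 : ∀ᶠ t in 𝓝[>] (0 : ℝ), t < 1 :=
    (gt_mem_nhds (by norm_num : (0 : ℝ) < 1)).filter_mono nhdsWithin_le_nhds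
  filter_upwards [hle1, self_mem_nhdsWithin] with t ht1 ht0
  have ht0' : 0 < t := ht0
  rw [rot_f, hz]
  have h1 : Real.cos t < 1 := by
    have := Real.cos_lt_cos_of_nonneg_of_le_pi (x := 0) (y := t) le_rfl
      (by linarith [Real.pi_gt_three]) ht0'
    rwa [Real.cos_zero] at this
  nlinarith

lemma exists_angle {a b : ℝ} (h : a ^ 2 + b ^ 2 = 1) :
    ∃ φ : ℝ, Real.cos φ = a ∧ Real.sin φ = b := by
  have hn : ‖(⟨a, b⟩ : ℂ)‖ = 1 := by
    rw [← sq_eq_sq₀ (norm_nonneg _) (by norm_num), ← Complex.normSq_eq_norm_sq,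
      Complex.normSq_apply]
    linarith
  have hne : (⟨a, b⟩ : ℂ) ≠ 0 := by
    intro h0
    rw [h0, norm_zero] at hn
    norm_num at hn
  refine ⟨Complex.arg ⟨a, b⟩, ?_, ?_⟩
  · rw [Complex.cos_arg hne, hn, div_one]
  · rw [Complex.sin_arg, hn, div_one]

/-- Step 2: the planar part. -/
lemma step2 {x : Fin 3 → ℝ} (hx : x ∈ ex.F) (h : IsLocalMinOn ex.f ex.F x) (hz : x 2 = 0)
    (hy : 0 ≤ x 1) : x 1 = 1 ∧ (x 0 = 1 ∨ x 0 = -1) := by
  have hx' := hx
  rw [mem_F] at hx'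
  obtain ⟨hg1, hg2⟩ := hx'
  rw [hz] at hg1 hg2
  have s5 : Real.sqrt 5 ^ 2 = 5 := Real.sq_sqrt (by norm_num)
  have s5' : 0 < Real.sqrt 5 := by positivity
  have s5u : Real.sqrt 5 < 2.24 := by
    rw [Real.sqrt_lt' (by norm_num)]; norm_num
  have s5l : 2.23 < Real.sqrt 5 := by
    rw [Real.lt_sqrt (by norm_num)]; norm_num
  rcases hg1.lt_or_eq with hg1 | hg1
  · rcases hg2.lt_or_eq with hg2 | hg2
    · -- interior
      exfalso
      let γ : ℝ → Fin 3 → ℝ := fun t => ![x 0 + t, x 1, x 2]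
      have hγ : Continuous γ := by
        refine continuous_pi (fun i => ?_)
        fin_cases i <;> simp [γ] <;> fun_prop
      refine not_localMin_two (x := x) γ hγ (by apply ext3 <;> simp [γ]) ?_ ?_ h
      · have e1 : ∀ᶠ t in 𝓝 (0 : ℝ), (x 0 + t) ^ 2 + 4 * x 1 ^ 2 + 4 * 0 ^ 2 < 5 := by
          have : Continuous (fun t : ℝ => (x 0 + t) ^ 2 + 4 * x 1 ^ 2 + 4 * 0 ^ 2) := by fun_prop
          exact (this.tendsto 0).eventually (gt_mem_nhds (by simpa using hg1))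
        have e2 : ∀ᶠ t in 𝓝 (0 : ℝ), 4 * (x 0 + t) ^ 2 + x 1 ^ 2 + 0 ^ 2 < 5 := by
          have : Continuous (fun t : ℝ => 4 * (x 0 + t) ^ 2 + x 1 ^ 2 + 0 ^ 2) := by fun_prop
          exact (this.tendsto 0).eventually (gt_mem_nhds (by simpa using hg2))
        filter_upwards [e1, e2] with t h1 h2
        rw [mem_F]
        simp only [γ, Matrix.cons_val_zero, Matrix.cons_val_one, Matrix.cons_val, hz]
        exact ⟨h1.le, h2.le⟩
      · filter_upwards [self_mem_nhdsWithin] with t ht0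
        have ht0' : 0 < t := ht0
        rw [f_eq, f_eq, f_eq]
        simp only [γ, Matrix.cons_val_zero, Matrix.cons_val_one, Matrix.cons_val]
        nlinarith
    · -- only the second constraint is active
      exfalso
      have hcirc : (2 * x 0 / Real.sqrt 5) ^ 2 + (x 1 / Real.sqrt 5) ^ 2 = 1 := by
        rw [div_pow, div_pow, s5]
        linarith
      obtain ⟨φ, hφc, hφs⟩ : ∃ φ : ℝ, Real.cos φ = 2 * x 0 / Real.sqrt 5 ∧
          Real.sin φ = x 1 / Real.sqrt 5 := exists_angle hcirc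
      have hx0 : x 0 = Real.sqrt 5 / 2 * Real.cos φ := by rw [hφc]; field_simp
      have hx1 : x 1 = Real.sqrt 5 * Real.sin φ := by rw [hφs]; field_simp
      let γ : ℝ → Fin 3 → ℝ := fun t =>
        ![Real.sqrt 5 / 2 * Real.cos (φ + t), Real.sqrt 5 * Real.sin (φ + t), 0]
      have hγ : Continuous γ := by
        refine continuous_pi (fun i => ?_)
        fin_cases i <;> simp [γ] <;> fun_prop
      refine not_localMin_two (x := x) γ hγ
        (by apply ext3 <;> simp [γ, hz, ← hx0, ← hx1]) ?_ ?_ h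
      · have e1 : ∀ᶠ t in 𝓝 (0 : ℝ), (Real.sqrt 5 / 2 * Real.cos (φ + t)) ^ 2 +
            4 * (Real.sqrt 5 * Real.sin (φ + t)) ^ 2 < 5 := by
          have : Continuous (fun t : ℝ => (Real.sqrt 5 / 2 * Real.cos (φ + t)) ^ 2 +
            4 * (Real.sqrt 5 * Real.sin (φ + t)) ^ 2) := by fun_prop
          refine (this.tendsto 0).eventually (gt_mem_nhds ?_)
          rw [add_zero, ← hx0, ← hx1]
          linarith
        filter_upwards [e1] with t h1
        rw [mem_F]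
        simp only [γ, Matrix.cons_val_zero, Matrix.cons_val_one, Matrix.cons_val]
        refine ⟨by linarith, ?_⟩
        have := Real.sin_sq_add_cos_sq (φ + t)
        rw [mul_pow, mul_pow, div_pow, s5]
        linarith
      · have e2 : ∀ᶠ t in 𝓝[>] (0 : ℝ), 1 / 2 < Real.cos t := by
          have : Tendsto Real.cos (𝓝 0) (𝓝 1) := by
            have := Real.continuous_cos.tendsto 0
            rwa [Real.cos_zero] at this
          exact (this.eventually (lt_mem_nhds (by norm_num))).filter_mono nhdsWithin_le_nhds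
        have hle1 : ∀ᶠ t in 𝓝[>] (0 : ℝ), t < 1 :=
          (gt_mem_nhds (by norm_num : (0 : ℝ) < 1)).filter_mono nhdsWithin_le_nhds
        filter_upwards [e2, hle1, self_mem_nhdsWithin] with t h2 ht1 ht0
        have ht0' : 0 < t := ht0
        have h1 : Real.cos t < 1 := by
          have := Real.cos_lt_cos_of_nonneg_of_le_pi (x := 0) (y := t) le_rfl
            (by linarith [Real.pi_gt_three]) ht0'
          rwa [Real.cos_zero] at this
        rw [f_eq, f_eq, f_eq]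
        simp only [γ, Matrix.cons_val_zero, Matrix.cons_val_one, Matrix.cons_val, hz]
        rw [Real.cos_add, Real.sin_add, Real.cos_add, Real.sin_add, Real.cos_neg, Real.sin_neg]
        set C := Real.cos φ
        set S := Real.sin φ
        set c := Real.cos t
        set s := Real.sin t
        have hCS : S ^ 2 + C ^ 2 = 1 := Real.sin_sq_add_cos_sq φ
        have hcs : s ^ 2 + c ^ 2 = 1 := Real.sin_sq_add_cos_sq t
        have hS : S ^ 2 < 1 / 5 := by
          have : x 1 ^ 2 < 1 := by nlinarith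
          rw [hx1, mul_pow, s5] at this
          linarith
        have hC1 : C ≤ 1 := Real.cos_le_one φ
        have hS1 : S ≤ 1 := Real.sin_le_one φ
        rw [hx0, hx1]
        have key : (1 - c) * (-(15 / 2) * (1 + c) * (C ^ 2 - S ^ 2) + Real.sqrt 5 / 2 * (C + S)) < 0 := by
          apply mul_neg_of_pos_of_neg (by linarith)
          have k1 : 3 / 5 < C ^ 2 - S ^ 2 := by linarith
          have k2 : (3 / 2) * (3 / 5) < (1 + c) * (C ^ 2 - S ^ 2) := by nlinarith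
          have k3 : Real.sqrt 5 / 2 * (C + S) ≤ Real.sqrt 5 / 2 * 2 := by gcongr; linarith
          linarith
        have expand : -((Real.sqrt 5 / 2 * (C * c - S * s)) ^ 2 + (Real.sqrt 5 * (S * c + C * s)) ^ 2 +
            0 ^ 2) - Real.sqrt 5 / 2 * (C * c - S * s) / 2 - Real.sqrt 5 * (S * c + C * s) / 4 +
            (-((Real.sqrt 5 / 2 * (C * c - S * -s)) ^ 2 + (Real.sqrt 5 * (S * c + C * -s)) ^ 2 +
            0 ^ 2) - Real.sqrt 5 / 2 * (C * c - S * -s) / 2 - Real.sqrt 5 * (S * c + C * -s) / 4) -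
            2 * (-((Real.sqrt 5 / 2 * C) ^ 2 + (Real.sqrt 5 * S) ^ 2 + 0 ^ 2) -
            Real.sqrt 5 / 2 * C / 2 - Real.sqrt 5 * S / 4) =
            (1 - c) * (-(15 / 2) * (1 + c) * (C ^ 2 - S ^ 2) + Real.sqrt 5 / 2 * (C + S)) := by
          have hs2 : s ^ 2 = 1 - c ^ 2 := by linarith
          ring_nf
          rw [hs2, s5]
          ring
        linarith
  · rcases hg2.lt_or_eq with hg2 | hg2
    · -- only the first constraint is active
      exfalso
      have hcirc : (x 0 / Real.sqrt 5) ^ 2 + (2 * x 1 / Real.sqrt 5) ^ 2 = 1 := by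
        rw [div_pow, div_pow, s5]
        linarith
      obtain ⟨φ, hφc, hφs⟩ : ∃ φ : ℝ, Real.cos φ = x 0 / Real.sqrt 5 ∧
          Real.sin φ = 2 * x 1 / Real.sqrt 5 := exists_angle hcirc
      have hx0 : x 0 = Real.sqrt 5 * Real.cos φ := by rw [hφc]; field_simp
      have hx1 : x 1 = Real.sqrt 5 / 2 * Real.sin φ := by rw [hφs]; field_simp
      let γ : ℝ → Fin 3 → ℝ := fun t =>
        ![Real.sqrt 5 * Real.cos (φ + t), Real.sqrt 5 / 2 * Real.sin (φ + t), 0]
      have hγ : Continuous γ := by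
        refine continuous_pi (fun i => ?_)
        fin_cases i <;> simp [γ] <;> fun_prop
      refine not_localMin_two (x := x) γ hγ
        (by apply ext3 <;> simp [γ, hz, ← hx0, ← hx1]) ?_ ?_ h
      · have e1 : ∀ᶠ t in 𝓝 (0 : ℝ), 4 * (Real.sqrt 5 * Real.cos (φ + t)) ^ 2 +
            (Real.sqrt 5 / 2 * Real.sin (φ + t)) ^ 2 < 5 := by
          have : Continuous (fun t : ℝ => 4 * (Real.sqrt 5 * Real.cos (φ + t)) ^ 2 +
            (Real.sqrt 5 / 2 * Real.sin (φ + t)) ^ 2) := by fun_prop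
          refine (this.tendsto 0).eventually (gt_mem_nhds ?_)
          rw [add_zero, ← hx0, ← hx1]
          linarith
        filter_upwards [e1] with t h1
        rw [mem_F]
        simp only [γ, Matrix.cons_val_zero, Matrix.cons_val_one, Matrix.cons_val]
        refine ⟨?_, by linarith⟩
        have := Real.sin_sq_add_cos_sq (φ + t)
        rw [mul_pow, mul_pow, div_pow, s5]
        linarith
      · have e2 : ∀ᶠ t in 𝓝[>] (0 : ℝ), 1 / 2 < Real.cos t := by
          have : Tendsto Real.cos (𝓝 0) (𝓝 1) := by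
            have := Real.continuous_cos.tendsto 0
            rwa [Real.cos_zero] at this
          exact (this.eventually (lt_mem_nhds (by norm_num))).filter_mono nhdsWithin_le_nhds
        have hle1 : ∀ᶠ t in 𝓝[>] (0 : ℝ), t < 1 :=
          (gt_mem_nhds (by norm_num : (0 : ℝ) < 1)).filter_mono nhdsWithin_le_nhds
        filter_upwards [e2, hle1, self_mem_nhdsWithin] with t h2 ht1 ht0
        have ht0' : 0 < t := ht0
        have h1 : Real.cos t < 1 := by
          have := Real.cos_lt_cos_of_nonneg_of_le_pi (x := 0) (y := t) le_rfl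
            (by linarith [Real.pi_gt_three]) ht0'
          rwa [Real.cos_zero] at this
        rw [f_eq, f_eq, f_eq]
        simp only [γ, Matrix.cons_val_zero, Matrix.cons_val_one, Matrix.cons_val, hz]
        rw [Real.cos_add, Real.sin_add, Real.cos_add, Real.sin_add, Real.cos_neg, Real.sin_neg]
        set C := Real.cos φ
        set S := Real.sin φ
        set c := Real.cos t
        set s := Real.sin t
        have hCS : S ^ 2 + C ^ 2 = 1 := Real.sin_sq_add_cos_sq φ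
        have hcs : s ^ 2 + c ^ 2 = 1 := Real.sin_sq_add_cos_sq t
        have hS : C ^ 2 < 1 / 5 := by
          have : x 0 ^ 2 < 1 := by nlinarith
          rw [hx0, mul_pow, s5] at this
          linarith
        have hC1 : C ≤ 1 := Real.cos_le_one φ
        have hS1 : S ≤ 1 := Real.sin_le_one φ
        rw [hx0, hx1]
        have key : (1 - c) * (-(15 / 2) * (1 + c) * (S ^ 2 - C ^ 2) +
            Real.sqrt 5 * C + Real.sqrt 5 / 4 * S) < 0 := by
          apply mul_neg_of_pos_of_neg (by linarith)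
          have k1 : 3 / 5 < S ^ 2 - C ^ 2 := by linarith
          have k2 : (3 / 2) * (3 / 5) < (1 + c) * (S ^ 2 - C ^ 2) := by nlinarith
          have k3 : Real.sqrt 5 * C ≤ Real.sqrt 5 * 1 := by gcongr
          have k4 : Real.sqrt 5 / 4 * S ≤ Real.sqrt 5 / 4 * 1 := by gcongr
          linarith
        have expand : -((Real.sqrt 5 * (C * c - S * s)) ^ 2 + (Real.sqrt 5 / 2 * (S * c + C * s)) ^ 2 +
            0 ^ 2) - Real.sqrt 5 * (C * c - S * s) / 2 - Real.sqrt 5 / 2 * (S * c + C * s) / 4 +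
            (-((Real.sqrt 5 * (C * c - S * -s)) ^ 2 + (Real.sqrt 5 / 2 * (S * c + C * -s)) ^ 2 +
            0 ^ 2) - Real.sqrt 5 * (C * c - S * -s) / 2 - Real.sqrt 5 / 2 * (S * c + C * -s) / 4) -
            2 * (-((Real.sqrt 5 * C) ^ 2 + (Real.sqrt 5 / 2 * S) ^ 2 + 0 ^ 2) -
            Real.sqrt 5 * C / 2 - Real.sqrt 5 / 2 * S / 4) =
            (1 - c) * (-(15 / 2) * (1 + c) * (S ^ 2 - C ^ 2) +
            Real.sqrt 5 * C + Real.sqrt 5 / 4 * S) := by
          have hs2 : s ^ 2 = 1 - c ^ 2 := by linarith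
          ring_nf
          rw [hs2, s5]
          ring
        linarith
    · -- the corners
      have hy2 : x 1 ^ 2 = 1 := by linarith
      have hx2 : x 0 ^ 2 = 1 := by linarith
      refine ⟨?_, by
        have : (x 0 - 1) * (x 0 + 1) = 0 := by linear_combination hx2
        rcases mul_eq_zero.mp this with h | h
        · left; linarith
        · right; linarith⟩
      nlinarith

/-- The global minimizer, the local nonglobal minimizer and the intermediate KKT point. -/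
def xg : Fin 3 → ℝ := ![1, 1, 0]

/-- The local nonglobal minimizer. -/
def xl : Fin 3 → ℝ := ![-1, 1, 0]

/-- The KKT point. -/
def xk : Fin 3 → ℝ := ![1, -1, 0]

lemma f_xg : ex.f xg = -11 / 4 := by
  rw [f_eq]; simp [xg]; norm_num

lemma f_xl : ex.f xl = -7 / 4 := by
  rw [f_eq]; simp [xl]; norm_num

lemma f_xk : ex.f xk = -9 / 4 := by
  rw [f_eq]; simp [xk]; norm_num

lemma xg_mem : xg ∈ ex.F := by
  rw [mem_F]; simp [xg]; norm_num

lemma xl_mem : xl ∈ ex.F := by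
  rw [mem_F]; simp [xl]; norm_num

lemma xk_mem : xk ∈ ex.F := by
  rw [mem_F]; simp [xk]; norm_num

lemma global_bound {x : Fin 3 → ℝ} (hx : x ∈ ex.F) :
    -11 / 4 + 1 / 4 * (x 0 - 1) ^ 2 + 1 / 8 * ((x 1 - 1) ^ 2 + x 2 ^ 2) ≤ ex.f x := by
  rw [mem_F] at hx
  rw [f_eq]
  nlinarith [hx.1, hx.2]

lemma global_iff (x : Fin 3 → ℝ) : ex.IsGlobal x ↔ x = xg := by
  constructor
  · rintro ⟨hx, h⟩
    have h1 := h xg xg_mem
    rw [f_xg] at h1
    have h2 := global_bound hx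
    have e0 : (x 0 - 1) ^ 2 = 0 := by nlinarith [sq_nonneg (x 0 - 1), sq_nonneg (x 1 - 1), sq_nonneg (x 2)]
    have e1 : (x 1 - 1) ^ 2 = 0 := by nlinarith [sq_nonneg (x 0 - 1), sq_nonneg (x 1 - 1), sq_nonneg (x 2)]
    have e2 : (x 2) ^ 2 = 0 := by nlinarith [sq_nonneg (x 0 - 1), sq_nonneg (x 1 - 1), sq_nonneg (x 2)]
    apply ext3
    · have := pow_eq_zero_iff (two_ne_zero) |>.mp e0
      simp [xg]; linarith
    · have := pow_eq_zero_iff (two_ne_zero) |>.mp e1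
      simp [xg]; linarith
    · have := pow_eq_zero_iff (two_ne_zero) |>.mp e2
      simp [xg]; linarith
  · rintro rfl
    refine ⟨xg_mem, fun y hy => ?_⟩
    rw [f_xg]
    have h2 := global_bound hy
    nlinarith [sq_nonneg (y 0 - 1), sq_nonneg (y 1 - 1), sq_nonneg (y 2)]

lemma xl_local : IsLocalMinOn ex.f ex.F xl := by
  have h0 : ∀ᶠ y in 𝓝[ex.F] xl, |y 0 + 1| < 1 / 10 := by
    have : Continuous (fun y : Fin 3 → ℝ => |y 0 + 1|) := by fun_prop
    have hv : |xl 0 + 1| < (1 : ℝ) / 10 := by simp [xl]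
    have h := (this.tendsto xl).eventually (gt_mem_nhds hv)
    exact h.filter_mono nhdsWithin_le_nhds
  filter_upwards [h0, self_mem_nhdsWithin] with y hy hyF
  rw [mem_F] at hyF
  obtain ⟨hg1, hg2⟩ := hyF
  rw [f_xl, f_eq]
  rw [abs_lt] at hy
  set u := y 0 + 1 with hu
  have hy0 : y 0 = u - 1 := by rw [hu]; ring
  rw [hy0] at hg1 hg2 ⊢
  -- the key relation 15 u (2 - u) = g₁ - 4 g₂
  set G1 := 5 - ((u - 1) ^ 2 + 4 * y 1 ^ 2 + 4 * y 2 ^ 2) with hG1
  set G2 := 5 - (4 * (u - 1) ^ 2 + y 1 ^ 2 + y 2 ^ 2) with hG2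
  have p1 : 0 ≤ G1 := by rw [hG1]; linarith
  have p2 : 0 ≤ G2 := by rw [hG2]; linarith
  have hrel : 15 * u * (2 - u) = 4 * G2 - G1 := by rw [hG1, hG2]; ring
  have hu2 : u ^ 2 ≤ 1 / 4 * (G1 + G2) := by
    have a1 : |15 * u * (2 - u)| ≤ 4 * (G1 + G2) := by
      rw [hrel, abs_le]; constructor <;> linarith
    have a2 : |15 * u * (2 - u)| = 15 * |u| * (2 - u) := by
      rw [abs_mul, abs_mul, abs_of_pos (by norm_num : (0 : ℝ) < 15),
        abs_of_pos (by linarith : (0 : ℝ) < 2 - u)]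
    have a3 : |u| < 1 / 10 := abs_lt.mpr hy
    have a4 : u ^ 2 = |u| * |u| := by rw [← sq_abs]; ring
    rw [a2] at a1
    rw [a4]
    nlinarith [abs_nonneg u]
  have hf : -((u - 1) ^ 2 + y 1 ^ 2 + y 2 ^ 2) - (u - 1) / 2 - y 1 / 4 - (-7 / 4) =
      -1 / 4 * u ^ 2 + 1 / 8 * ((y 1 - 1) ^ 2 + y 2 ^ 2) + 1 / 4 * G1 + 1 / 8 * G2 := by
    rw [hG1, hG2]; ring
  nlinarith [sq_nonneg (y 1 - 1), sq_nonneg (y 2)]

lemma local_iff (x : Fin 3 → ℝ) : ex.IsLocalNonglobal x ↔ x = xl := by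
  constructor
  · rintro ⟨hx, hloc, y, hy, hlt⟩
    obtain ⟨hz, hy0⟩ := step1 hx hloc
    obtain ⟨h1, h2 | h2⟩ := step2 hx hloc hz hy0
    · exfalso
      have : x = xg := ext3 (by simp [xg, h2]) (by simp [xg, h1]) (by simp [xg, hz])
      rw [this] at hlt
      have := ((global_iff xg).mpr rfl).2 y hy
      linarith
    · exact ext3 (by simp [xl, h2]) (by simp [xl, h1]) (by simp [xl, hz])
  · rintro rfl
    refine ⟨xl_mem, xl_local, xg, xg_mem, ?_⟩
    rw [f_xg, f_xl]; norm_num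

lemma kkt : ex.IsKKT xk := by
  refine ⟨xk_mem, 3 / 20, 11 / 40, by norm_num, by norm_num, ?_, ?_, ?_⟩
  · apply ext3 <;> simp only [Pi.add_apply, Pi.smul_apply, ex, xk, Matrix.mulVec_diagonal] <;>
      simp <;> norm_num
  · rw [g₁_eq]; simp [xk]; norm_num
  · rw [g₂_eq]; simp [xk]; norm_num

/-- There is a CDT subproblem in dimension three with exactly one global minimizer `xg`, exactly
one local nonglobal minimizer `xl`, and a KKT point `xk` with `f xg < f xk < f xl`. -/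
theorem result : ∃ P : CDT 3, ∃ xg xl xk : Fin 3 → ℝ,
    (∀ x, P.IsGlobal x ↔ x = xg) ∧ (∀ x, P.IsLocalNonglobal x ↔ x = xl) ∧ P.IsKKT xk ∧
      P.f xg < P.f xk ∧ P.f xk < P.f xl := by
  refine ⟨ex, xg, xl, xk, global_iff, local_iff, kkt, ?_, ?_⟩
  · rw [f_xg, f_xk]; norm_num
  · rw [f_xk, f_xl]; norm_num

end Pool.Agent.Results.MP_2e17cf_an.SaddleBelow
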